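import Mathlib
import Pool.Agent.Q172.SpanTriod

set_option autoImplicit false

open Set

namespace Pool.Agent.Results.MP_afcd7b_gt.TriodSemiSpan

/-- A simple triod: the union of three arcs `α 0`, `α 1`, `α 2` (injective continuous images of the
unit interval) that share one common endpoint `o` and are otherwise pairwise disjoint. -/
def IsSimpleTriod (T : Type) [MetricSpace T] : Prop :=
  ∃ (o : T) (α : Fin 3 → unitInterval → T),
    (∀ i, Continuous (α i)) ∧ (∀ i, Function.Injective (α i)) ∧ (∀ i, α i 0 = o) ∧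
    (∀ i j, i ≠ j → range (α i) ∩ range (α j) = {o}) ∧ (⋃ i, range (α i)) = univ

/-- The surjective span: the supremum of all `a ≥ 0` for which some connected `C ⊆ T × T` has both
projections equal to `T` and `a ≤ dist x y` for all `(x, y) ∈ C`. -/
noncomputable def surjectiveSpan (T : Type) [MetricSpace T] : ℝ :=
  sSup {a : ℝ | 0 ≤ a ∧ ∃ C : Set (T × T), IsConnected C ∧ Prod.fst '' C = univ ∧
    Prod.snd '' C = univ ∧ ∀ p ∈ C, a ≤ dist p.1 p.2}

/-- The surjective semi-span: only one of the two projections is required to be onto. -/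
noncomputable def surjectiveSemiSpan (T : Type) [MetricSpace T] : ℝ :=
  sSup {a : ℝ | 0 ≤ a ∧ ∃ C : Set (T × T), IsConnected C ∧
    (Prod.fst '' C = univ ∨ Prod.snd '' C = univ) ∧ ∀ p ∈ C, a ≤ dist p.1 p.2}

/-- There is a simple triod with a metric of diameter at most one (compatible with its topology)
whose surjective semi-span is one and whose surjective span is smaller than one. -/
theorem result :
    ∃ (T : Type) (_ : MetricSpace T), IsSimpleTriod T ∧ (∀ x y : T, dist x y ≤ 1) ∧
      surjectiveSpan T < 1 ∧ surjectiveSemiSpan T = 1 := by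
  obtain ⟨Y, m, e, ε₀, h0, h1, h2, ⟨Z, hZ, hZf, hZd⟩, h4⟩ := Q172.SpanTriod.exists_triod
  refine ⟨Y, m, ?_, h2, ?_, ?_⟩
  · refine ⟨e (Q172.SpanTriod.leg 0 0), fun i t => e (Q172.SpanTriod.leg i t),
      fun i => e.continuous.comp (Q172.SpanTriod.leg_cont i),
      fun i => e.injective.comp (Q172.SpanTriod.leg_inj i),
      fun i => congrArg e (Q172.SpanTriod.leg_zero i 0), ?_, ?_⟩
    · intro i j hij
      apply Subset.antisymm
      · rintro _ ⟨⟨s, rfl⟩, ⟨t, ht⟩⟩
        have h5 : Q172.SpanTriod.leg i s = Q172.SpanTriod.leg j t := (e.injective ht).symm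
        have h6 := Q172.SpanTriod.leg_meet hij h5
        rw [h6]
        exact congrArg e (Q172.SpanTriod.leg_zero i 0)
      · rintro _ rfl
        exact ⟨⟨0, congrArg e (Q172.SpanTriod.leg_zero i 0)⟩,
          ⟨0, congrArg e (Q172.SpanTriod.leg_zero j 0)⟩⟩
    · apply eq_univ_of_forall
      intro y
      obtain ⟨i, t, hit⟩ := Q172.SpanTriod.leg_cover (e.symm y)
      refine mem_iUnion.2 ⟨i, t, ?_⟩
      show e (Q172.SpanTriod.leg i t) = y
      rw [hit, e.apply_symm_apply]
  · refine lt_of_le_of_lt (Real.sSup_le ?_ h0) h1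
    rintro a ⟨-, C, hC, hC1, hC2, hCd⟩
    obtain ⟨p, hp, hpd⟩ := h4 C hC hC1 hC2
    exact (hCd p hp).trans hpd
  · apply le_antisymm
    · refine Real.sSup_le ?_ zero_le_one
      rintro a ⟨-, C, hC, -, hCd⟩
      obtain ⟨p, hp⟩ := hC.nonempty
      exact (hCd p hp).trans (h2 _ _)
    · refine le_csSup ⟨1, ?_⟩ ⟨zero_le_one, Z, hZ, Or.inl hZf, hZd⟩
      rintro a ⟨-, C, hC, -, hCd⟩
      obtain ⟨p, hp⟩ := hC.nonempty
      exact (hCd p hp).trans (h2 _ _)

end Pool.Agent.Results.MP_afcd7b_gt.TriodSemiSpan
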